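import Pool.Agent.W811.LW.Stm

set_option autoImplicit false

namespace Pool.Agent.W556.LW

open Filter Topology Pool.Agent.W811.LW

theorem lseq : LSEQ := by
  intro ε hε
  have hr : (1 : ℝ) < 1 + ε := by linarith
  have hr0 : (0 : ℝ) < 1 + ε := by linarith
  obtain ⟨K, hK⟩ := pow_unbounded_of_one_lt (3 + 1 / ε) hr
  have hK1 : 1 ≤ K := by
    rcases Nat.eq_zero_or_pos K with h | h
    · subst h
      have : 0 < 1 / ε := by positivity
      simp only [pow_zero] at hK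
      linarith
    · exact h
  refine ⟨fun k => ⌊(1 + ε) ^ k⌋₊ + k, K, ?_, ?_, ?_⟩
  · refine strictMono_nat_of_lt_succ fun k => ?_
    have h1 : ⌊(1 + ε) ^ k⌋₊ ≤ ⌊(1 + ε) ^ (k + 1)⌋₊ :=
      Nat.floor_mono (pow_le_pow_right₀ hr.le (Nat.le_succ k))
    show ⌊(1 + ε) ^ k⌋₊ + k < ⌊(1 + ε) ^ (k + 1)⌋₊ + (k + 1)
    omega
  · intro k
    show 2 * (⌊(1 + ε) ^ k⌋₊ + k) < ⌊(1 + ε) ^ (k + K)⌋₊ + (k + K)
    have h1 : ((⌊(1 + ε) ^ k⌋₊ : ℕ) : ℝ) ≤ (1 + ε) ^ k := Nat.floor_le (by positivity)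
    have h2 : (1 + ε) ^ (k + K) < ((⌊(1 + ε) ^ (k + K)⌋₊ : ℕ) : ℝ) + 1 := Nat.lt_floor_add_one _
    have h3 : 1 + (k : ℝ) * ε ≤ (1 + ε) ^ k := one_add_mul_le_pow (by linarith) k
    have h4 : (1 + ε) ^ k * (3 + 1 / ε) ≤ (1 + ε) ^ (k + K) := by
      rw [pow_add]
      exact mul_le_mul_of_nonneg_left hK.le (by positivity)
    have h5 : (1 + (k : ℝ) * ε) * (1 + 1 / ε) ≤ (1 + ε) ^ k * (1 + 1 / ε) :=
      mul_le_mul_of_nonneg_right h3 (by positivity)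
    have h6 : (1 + (k : ℝ) * ε) * (1 + 1 / ε) = 1 + 1 / ε + k * ε + k := by
      field_simp
      ring
    have h7 : 0 < 1 / ε := by positivity
    have h8 : 0 ≤ (k : ℝ) * ε := by positivity
    have h9 : (1 : ℝ) ≤ K := by exact_mod_cast hK1
    have h10 : (2 : ℝ) * ((⌊(1 + ε) ^ k⌋₊ : ℕ) + k) < (⌊(1 + ε) ^ (k + K)⌋₊ : ℕ) + (k + K) := by
      nlinarith
    exact_mod_cast h10
  · have hp : Tendsto (fun k : ℕ => (1 + ε) ^ k) atTop atTop :=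
      tendsto_pow_atTop_atTop_of_one_lt hr
    have h1 : Tendsto (fun k : ℕ => ((⌊(1 + ε) ^ k⌋₊ : ℕ) : ℝ) / (1 + ε) ^ k) atTop (𝓝 1) :=
      tendsto_nat_floor_div_atTop.comp hp
    have h2 : Tendsto (fun k : ℕ => (k : ℝ) / (1 + ε) ^ k) atTop (𝓝 0) := by
      have := tendsto_pow_const_div_const_pow_of_one_lt 1 hr
      simpa using this
    have h3 : Tendsto (fun k : ℕ => (((⌊(1 + ε) ^ k⌋₊ + k : ℕ)) : ℝ) / (1 + ε) ^ k) atTop (𝓝 1) := by
      have h := h1.add h2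
      rw [add_zero] at h
      refine h.congr fun k => ?_
      push_cast
      rw [add_div]
    have h4 := (((tendsto_add_atTop_iff_nat 1).mpr h3).div h3 one_ne_zero).mul_const (1 + ε)
    rw [div_one, one_mul] at h4
    refine h4.congr fun k => ?_
    have hk : (1 + ε) ^ k ≠ 0 := by positivity
    have hb : ((⌊(1 + ε) ^ k⌋₊ + k : ℕ) : ℝ) ≠ 0 := by
      have : 1 ≤ ⌊(1 + ε) ^ k⌋₊ := by
        rw [Nat.one_le_floor_iff]
        exact one_le_pow₀ hr.le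
      have h' : (0 : ℝ) < ((⌊(1 + ε) ^ k⌋₊ + k : ℕ) : ℝ) := by
        exact_mod_cast (by omega : 0 < ⌊(1 + ε) ^ k⌋₊ + k)
      exact h'.ne'
    simp only [Pi.div_apply]
    rw [pow_succ]
    field_simp

end Pool.Agent.W556.LW
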